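import Pool.Agent.N54.MS.One
import Pool.Agent.N141.SG.Near

/-! Near-uniform multiplicities, generic sequences of sums (after `Pool.Agent.N141.SG.Near`, helper141). -/

set_option autoImplicit false

namespace Pool.Agent.N54.MS

open Finset Filter
open Pool.Agent.TH885.NW (loW upW win_len)
open Pool.Agent.N141.SG (GoodN badN good_sq window_near)

/-- **near-uniform vectors** -/
theorem near_cnt {n : ℕ} (hn : 10 ≤ n) {D : Set ℕ} {v : ℕ → ℝ} (h : Gen D v)
    (hv : ∀ᶠ n : ℕ in atTop, 1 ≤ v n) {δ : ℝ} (hδ : 0 < δ) : ∀ᶠ N : ℕ in atTop,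
      cnt D (fun t => ¬ GoodN n ⌊v t⌋₊) N ≤ (badN n + δ) * cnt D (fun _ => True) N := by
  classical
  have hs3 := Pool.Agent.N141.SG.three_lt hn
  by_cases hsq : IsSquare n
  · have e : badN n = 0 := by
      unfold badN
      rw [if_pos hsq]
    rw [e, zero_add]
    exact count_none hv (bad := fun m => ¬ GoodN n m) (fun m _ hbad => hbad (good_sq hn hsq m)) hδ.le
  · have hirr : Irrational (√(n : ℝ))⁻¹ := (irrational_sqrt_natCast_iff.2 hsq).inv
    obtain ⟨g1, g2, g3⟩ := win_len hn
    have e : badN n = loW n / 2 - (-(upW n / 2)) := by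
      unfold badN loW upW
      rw [if_neg hsq]
      ring
    rw [e]
    exact count_of h hv (by positivity) hirr (alg_sqrt n).inv ((√(n : ℝ) - 3) / 2) (by linarith)
      (bad := fun m => ¬ GoodN n m) (fun m _ hbad => window_near hn hbad) hδ

end Pool.Agent.N54.MS
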