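import Pool.Agent.N54.ME.Three
import Pool.Agent.N141.SG.Arc

/-! One-dimensional metric theorem: for almost all members of a family of sequences the exponential sums of all the nonzero algebraic
multiples are of smaller order, over all sufficiently large sets of indices. -/

set_option autoImplicit false

namespace Pool.Agent.N54.MS

open Finset Filter MeasureTheory
open Pool.Agent.H469R2.NK (e norm_e e_add conj_e)
open Pool.Agent.N141.SG (SmallTo smallTo_of)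
open Pool.Agent.N54.ME (Spread SmallE SS spread_lin spread_pow)

open Classical in
/-- the members of `D` in `(N, 2 N]` -/
noncomputable def blk (D : Set ℕ) (N : ℕ) : Finset ℕ := (Finset.Ioc N (2 * N)).filter (fun t => t ∈ D)

/-- the number of the members `t` of `D` in `(N, 2 N]` with `p t` -/
noncomputable def cnt (D : Set ℕ) (p : ℕ → Prop) (N : ℕ) : ℝ :=
  ({t : ℕ | N < t ∧ t ≤ 2 * N ∧ t ∈ D ∧ p t}.ncard : ℝ)

lemma cnt_eq (D : Set ℕ) (p : ℕ → Prop) (N : ℕ) :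
    cnt D p N = ({t : ℕ | t ∈ blk D N ∧ p t}.ncard : ℝ) := by
  unfold cnt blk
  congr 2
  ext t
  simp only [Set.mem_ofPred_eq, Finset.mem_filter, Finset.mem_Ioc]
  tauto

lemma cnt_true (D : Set ℕ) (N : ℕ) : cnt D (fun _ => True) N = (blk D N).card := by
  rw [cnt_eq]
  have : {t : ℕ | t ∈ blk D N ∧ True} = (blk D N : Set ℕ) := by
    ext t
    simp
  rw [this, Set.ncard_coe_finset]

/-- the set `D` has many members in `(N, 2 N]` -/
def Many (D : Set ℕ) : Prop :=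
  ∀ ε : ℝ, 0 < ε → ∀ᶠ N : ℕ in atTop, (N : ℝ) ^ (1 - ε) ≤ cnt D (fun _ => True) N

lemma many_univ : Many Set.univ := by
  intro ε hε
  obtain ⟨N₀, h⟩ := Pool.Agent.N54.ME.many_ints ε hε
  filter_upwards [eventually_ge_atTop N₀] with N hN
  rw [cnt_true]
  refine (h N hN).trans (le_of_eq ?_)
  unfold blk
  congr 2
  ext t
  simp

lemma many_primes : Many {p : ℕ | p.Prime} := by
  intro ε hε
  obtain ⟨N₀, h⟩ := Pool.Agent.N54.ME.many_primes ε hε
  filter_upwards [eventually_ge_atTop N₀] with N hN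
  rw [cnt_true]
  refine (h N hN).trans (le_of_eq ?_)
  unfold blk
  congr 2
  ext t
  simp

/-- the exponential sums of all the nonzero algebraic multiples are of smaller order -/
def Gen (D : Set ℕ) (x : ℕ → ℝ) : Prop :=
  ∀ γ : ℝ, γ ≠ 0 → IsAlgebraic ℚ γ → SmallTo (blk D) (fun n => γ * x n)

lemma mul_spread {ρ u v : ℝ} (hρ : 0 < ρ) {F : ℕ → ℝ → ℝ} (hF : Spread ρ u v F) {γ : ℝ} (hγ : 0 < γ) :
    Spread (ρ / 2) u v (fun n x => γ * F n x) := by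
  obtain ⟨hc, n₀, h⟩ := hF
  have h1 : ∀ n, deriv (fun x : ℝ => γ * F n x) = fun x => γ * deriv (F n) x := by
    intro n
    funext x
    exact deriv_const_mul_field γ
  have h2 : ∀ n, deriv (fun x : ℝ => γ * deriv (F n) x) = fun x => γ * deriv (deriv (F n)) x := by
    intro n
    funext x
    exact deriv_const_mul_field γ
  have h3 : ∀ᶠ n : ℕ in atTop, 1 / γ ≤ (n : ℝ) ^ (ρ / 2) :=
    ((tendsto_rpow_atTop (by positivity)).comp tendsto_natCast_atTop_atTop).eventually_ge_atTop _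
  obtain ⟨n₁, h3⟩ := eventually_atTop.1 h3
  refine ⟨fun n => contDiff_const.mul (hc n), n₀ + n₁ + 1, fun n hn x hx => ?_⟩
  rw [h1, h1, h2, h2]
  obtain ⟨h4, h5⟩ := h n (by omega) x hx
  have hn0 : (0 : ℝ) < n := by exact_mod_cast (by omega : 0 < n)
  constructor
  · have h6 : (n : ℝ) ^ (ρ / 2 - 1) ≤ γ * (n : ℝ) ^ (ρ - 1) := by
      have e1 : (n : ℝ) ^ (ρ - 1) = (n : ℝ) ^ (ρ / 2) * (n : ℝ) ^ (ρ / 2 - 1) := by
        rw [← Real.rpow_add hn0]
        congr 1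
        ring
      have h7 : 1 ≤ γ * (n : ℝ) ^ (ρ / 2) := by
        have := h3 n (by omega)
        rw [div_le_iff₀ hγ] at this
        linarith
      rw [e1, ← mul_assoc]
      exact le_mul_of_one_le_left (by positivity) h7
    calc (n : ℝ) ^ (ρ / 2 - 1) ≤ γ * (n : ℝ) ^ (ρ - 1) := h6
      _ ≤ γ * (deriv (F (n + 1)) x - deriv (F n) x) := mul_le_mul_of_nonneg_left h4 hγ.le
      _ = _ := by ring
  · exact mul_le_mul_of_nonneg_left h5 hγ.le

theorem ae_pos {D : Set ℕ} (hD : Many D) {ρ : ℝ} (hρ : 0 < ρ) (hρ1 : ρ ≤ 1) (u v : ℝ) {F : ℕ → ℝ → ℝ}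
    (hF : Spread ρ u v F) {γ : ℝ} (hγ : 0 < γ) :
    ∀ᵐ ξ : ℝ, ξ ∈ Set.Ioc u v → SmallTo (blk D) (fun n => γ * F n ξ) := by
  classical
  by_cases huv : u ≤ v
  · have hS := mul_spread hρ hF hγ
    obtain ⟨n₀, hfam⟩ := hS.fam
    obtain ⟨M, hM⟩ : ∃ M : ℕ, M = ⌈4 * ((1 : ℝ) + 6) / (ρ / 2)⌉₊ := ⟨_, rfl⟩
    have hMlow : 4 * ((1 : ℝ) + 6) / (ρ / 2) ≤ M := hM ▸ Nat.le_ceil _
    have hMρ : 4 * ((Fintype.card (Fin 1) : ℝ) + 6) ≤ (ρ / 2) * M := by
      rw [div_le_iff₀ (by positivity)] at hMlow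
      rw [Fintype.card_fin, Nat.cast_one]
      linarith
    have hM1 : 1 ≤ M := hM ▸ Nat.ceil_pos.2 (by positivity)
    have hMR : (1 : ℝ) ≤ M := by exact_mod_cast hM1
    have h := Pool.Agent.N54.ME.ae_all (ι := Fin 1) (fun n => n ∈ D) M (fun _ => u) (fun _ => v)
      (fun _ => huv) (ρ / 2) n₀ (fun _ n x => γ * F n x) (fun _ n => deriv (fun x => γ * F n x))
      (fun _ n => deriv (deriv (fun x => γ * F n x))) (fun _ => hfam n₀ le_rfl)
      (by positivity) (by linarith) hMρ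
    have h' := ((volume_preserving_funUnique (Fin 1) ℝ).symm).quasiMeasurePreserving.ae h
    filter_upwards [h'] with ξ h1 hξ
    have h2 := Pool.Agent.N54.ME.small_of (fun n => n ∈ D) M hM1 (fun (_ : Fin 1) n x => γ * F n x)
      (((MeasurableEquiv.funUnique (Fin 1) ℝ).symm) ξ) (Equiv.refl (Fin 1)) (h1 (fun _ => hξ))
    obtain ⟨N₀, h2⟩ := h2
    have hη : (0 : ℝ) < 1 / (2 * M) := by positivity
    refine smallTo_of hη ?_ ?_
    · filter_upwards [eventually_ge_atTop (max N₀ 1)] with N hN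
      have hN1 : 1 ≤ N := (le_max_right _ _).trans hN
      have hp : (1 : ℝ) ≤ (N : ℝ) ^ (1 / (2 * (M : ℝ))) := Real.one_le_rpow (by exact_mod_cast hN1) hη.le
      have h3 := h2 N ((le_max_left _ _).trans hN) 1 one_ne_zero (fun j => by simpa using hp) 1 le_rfl
        (by simpa using hp)
      refine le_trans (le_of_eq ?_) h3
      congr 1
      unfold blk
      refine sum_congr rfl fun n _ => ?_
      congr 1
      rw [Fin.sum_univ_one]
      simp only [Pi.one_apply, Int.cast_one, one_mul, Nat.cast_one, div_one]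
      rfl
    · filter_upwards [hD (1 / (2 * M) / 2) (by positivity)] with N hN
      rw [cnt_true] at hN
      exact hN
  · refine Eventually.of_forall fun ξ hξ => absurd (hξ.1.le.trans hξ.2) huv

theorem spread_gen {D : Set ℕ} (hD : Many D) {ρ : ℝ} (hρ : 0 < ρ) (hρ1 : ρ ≤ 1) (u v : ℝ) (F : ℕ → ℝ → ℝ)
    (hF : Spread ρ u v F) : ∀ᵐ ξ : ℝ, ξ ∈ Set.Ioc u v → Gen D (fun n => F n ξ) := by
  have h1 : ∀ᵐ ξ : ℝ, ∀ γ ∈ {γ : ℝ | IsAlgebraic ℚ γ}, 0 < γ → ξ ∈ Set.Ioc u v →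
      SmallTo (blk D) (fun n => γ * F n ξ) := by
    refine (ae_ball_iff (Algebraic.countable ℚ ℝ)).2 fun γ _ => ?_
    by_cases hγ : 0 < γ
    · filter_upwards [ae_pos hD hρ hρ1 u v hF hγ] with ξ h _
      exact h
    · exact Eventually.of_forall fun ξ h => absurd h hγ
  filter_upwards [h1] with ξ h hξ γ hγ halg
  rcases lt_or_gt_of_ne hγ with h2 | h2
  · have h3 := h (-γ) halg.neg (by linarith) hξ
    have e1 : (fun n => γ * F n ξ) = fun n => -(-γ * F n ξ) := by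
      funext n
      ring
    rw [e1]
    exact h3.neg
  · exact h γ halg h2 hξ

theorem lin_gen {D : Set ℕ} (hD : Many D) {ρ : ℝ} (hρ : 0 < ρ) (hρ1 : ρ ≤ 1) (g c : ℕ → ℝ)
    (hg : ∀ᶠ n : ℕ in atTop, (n : ℝ) ^ (ρ - 1) ≤ g (n + 1) - g n) :
    ∀ᵐ ξ : ℝ, Gen D (fun n => ξ * g n + c n) := by
  have h1 : ∀ᵐ ξ : ℝ, ∀ m : ℕ, ξ ∈ Set.Ioc (-(m : ℝ)) m → Gen D (fun n => ξ * g n + c n) :=
    ae_all_iff.2 fun m => spread_gen hD hρ hρ1 (-(m : ℝ)) m (fun n x => x * g n + c n)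
      (spread_lin _ _ g c hg)
  filter_upwards [h1] with ξ hξ
  obtain ⟨m, hm⟩ := exists_nat_gt |ξ|
  have h3 := abs_lt.1 hm
  exact hξ m ⟨h3.1, h3.2.le⟩

theorem pow_gen {D : Set ℕ} (hD : Many D) (g : ℕ → ℕ) (hg : StrictMono g) (c : ℕ → ℝ) :
    ∀ᵐ ξ : ℝ, 1 < ξ → Gen D (fun n => ξ ^ g n + c n) := by
  have h1 : ∀ᵐ ξ : ℝ, ∀ m : ℕ, ξ ∈ Set.Ioc (1 : ℝ) m → Gen D (fun n => ξ ^ g n + c n) :=
    ae_all_iff.2 fun m => spread_gen hD (ρ := 1) one_pos le_rfl 1 m (fun n x => x ^ g n + c n)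
      (spread_pow le_rfl _ _ le_rfl g hg c)
  filter_upwards [h1] with ξ hξ h
  obtain ⟨m, hm⟩ := exists_nat_gt |ξ|
  exact hξ m ⟨h, ((le_abs_self _).trans hm.le)⟩

/-- the three kinds of families -/
theorem three1 {D : Set ℕ} (hD : Many D) {ρ : ℝ} (hρ : 0 < ρ) (hρ1 : ρ ≤ 1) (B : (ℕ → ℝ) → Prop)
    (hB : ∀ x : ℕ → ℝ, Gen D x → B x) :
    (∀ (u v : ℝ) (F : ℕ → ℝ → ℝ), Spread ρ u v F →
      ∀ᵐ ξ : ℝ, ξ ∈ Set.Ioc u v → B (fun n => F n ξ)) ∧
    (∀ g c : ℕ → ℝ, (∀ᶠ n : ℕ in atTop, (n : ℝ) ^ (ρ - 1) ≤ g (n + 1) - g n) →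
      ∀ᵐ ξ : ℝ, B (fun n => ξ * g n + c n)) ∧
    (∀ (g : ℕ → ℕ) (c : ℕ → ℝ), StrictMono g → ∀ᵐ ξ : ℝ, 1 < ξ → B (fun n => ξ ^ g n + c n)) := by
  refine ⟨fun u v F hF => ?_, fun g c hg => ?_, fun g c hg => ?_⟩
  · filter_upwards [spread_gen hD hρ hρ1 u v F hF] with ξ h hξ
    exact hB _ (h hξ)
  · filter_upwards [lin_gen hD hρ hρ1 g c hg] with ξ h
    exact hB _ h
  · filter_upwards [pow_gen hD g hg c] with ξ h hξ
    exact hB _ (h hξ)

end Pool.Agent.N54.MS
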