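import Pool.Agent.N54.MS.Seq
import Pool.Agent.N141.SG.Joint

/-! Multiples of integer parts modulo one, for generic sequences (after `Pool.Agent.N141.SG`, helper141). -/

set_option autoImplicit false

namespace Pool.Agent.N54.MS

open Finset Filter
open Pool.Agent.N141.SG (SmallTo arc boxesR rad rad_indep cell Tgt rad_le of_dvd)

lemma alg_nat (m : ℕ) : IsAlgebraic ℚ (m : ℝ) := by
  have h := isAlgebraic_algebraMap (R := ℚ) (A := ℝ) (m : ℚ)
  rwa [map_natCast] at h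

lemma alg_int (m : ℤ) : IsAlgebraic ℚ (m : ℝ) := by
  have h := isAlgebraic_algebraMap (R := ℚ) (A := ℝ) (m : ℚ)
  rwa [map_intCast] at h

lemma alg_sqrt (m : ℕ) : IsAlgebraic ℚ √(m : ℝ) := by
  apply IsAlgebraic.of_pow (n := 2) (by norm_num)
  rw [Real.sq_sqrt (Nat.cast_nonneg m)]
  exact alg_nat m

lemma alg_sum {ι : Type} (s : Finset ι) (f : ι → ℝ) (h : ∀ i ∈ s, IsAlgebraic ℚ (f i)) :
    IsAlgebraic ℚ (∑ i ∈ s, f i) := by
  classical
  induction s using Finset.induction_on with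
  | empty =>
    rw [sum_empty]
    exact isAlgebraic_zero
  | insert a s ha ih =>
    rw [sum_insert ha]
    exact (h a (mem_insert_self _ _)).add (ih fun i hi => h i (mem_insert_of_mem hi))

/-- generic sequences -/
theorem tgt_of {D : Set ℕ} {v : ℕ → ℝ} (h : Gen D v) : ∀ᶠ N : ℕ in atTop,
      1 / 10000 ^ 22 * ((blk D N).card : ℝ) ≤ (((blk D N : Set ℕ) ∩ {n : ℕ | Tgt ⌊v n⌋}).ncard : ℝ) := by
  classical
  obtain ⟨s, hs⟩ : ∃ s : ℕ → Finset ℕ, s = blk D := ⟨_, rfl⟩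
  have h1 := boxesR (r := 21) (by norm_num) (s := s)
    (x := fun n j => √(rad j : ℝ) * v n + (if (j : ℕ) = 0 then 0 else √(rad j : ℝ) / 2))
    (by
      intro g hg
      have hγ : ∑ j, (g j : ℝ) * √(rad j : ℝ) ≠ 0 := fun h0 => hg (rad_indep h0)
      have halg : IsAlgebraic ℚ (∑ j, (g j : ℝ) * √(rad j : ℝ)) :=
        alg_sum _ _ fun j _ => (alg_int _).mul (alg_sqrt _)
      have h2 := (h _ hγ halg).add_const
        (∑ j, (g j : ℝ) * (if (j : ℕ) = 0 then 0 else √(rad j : ℝ) / 2))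
      have e1 : (fun n => ∑ j, (g j : ℝ) * (√(rad j : ℝ) * v n +
          (if (j : ℕ) = 0 then 0 else √(rad j : ℝ) / 2))) = fun n =>
          (∑ j, (g j : ℝ) * √(rad j : ℝ)) * v n +
            ∑ j, (g j : ℝ) * (if (j : ℕ) = 0 then 0 else √(rad j : ℝ) / 2) := by
        funext n
        rw [sum_mul, ← sum_add_distrib]
        exact sum_congr rfl fun j _ => by ring
      rw [e1, hs]
      exact h2) (q := 10000) (by norm_num) (δ := 1 / 10000 ^ 21 - 1 / 10000 ^ 22) (by norm_num)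
  rw [← hs]
  filter_upwards [h1] with N hN
  have h2 := hN cell
  have e1 : (1 / ((10000 : ℕ) : ℝ) ^ 21 - (1 / 10000 ^ 21 - 1 / 10000 ^ 22)) = 1 / 10000 ^ 22 := by
    push_cast
    ring
  rw [e1] at h2
  refine h2.trans ?_
  rw [← Set.ncard_coe_finset]
  have hfin : ((s N : Set ℕ) ∩ {n : ℕ | Tgt ⌊v n⌋}).Finite :=
    (Finset.finite_toSet (s N)).inter_of_left _
  have hsub : (((s N).filter (fun n => ∀ j, ((10000 : ℕ) : ℤ) ∣
      ⌊((10000 : ℕ) : ℝ) * (√(rad j : ℝ) * v n + (if (j : ℕ) = 0 then 0 else √(rad j : ℝ) / 2))⌋ -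
        cell j) : Finset ℕ) : Set ℕ) ⊆ (s N : Set ℕ) ∩ {n : ℕ | Tgt ⌊v n⌋} := by
    intro n hn
    rw [Finset.mem_coe, Finset.mem_filter] at hn
    obtain ⟨hn1, hn2⟩ := hn
    refine ⟨hn1, ?_⟩
    -- the cell of `v n`
    obtain ⟨z0, h3, h4⟩ := of_dvd (hn2 0)
    have hc0 : cell 0 = 0 := rfl
    have hr0 : √(rad 0 : ℝ) = 1 := by
      have : rad 0 = 1 := rfl
      rw [this]
      simp
    rw [hc0, hr0] at h3 h4
    simp only [Fin.val_zero, if_true, one_mul, add_zero, Int.cast_zero, zero_div, zero_add] at h3 h4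
    have hfl : ⌊v n⌋ = z0 := by
      rw [Int.floor_eq_iff]
      constructor
      · linarith
      · linarith
    intro j hj
    obtain ⟨z, h5, h6⟩ := of_dvd (hn2 j)
    rw [if_neg hj] at h5 h6
    refine ⟨z, ?_, ?_⟩
    · rw [hfl]
      have h7 := rad_le j
      have h8 : √(rad j : ℝ) * (v n - z0) ≤ 6 * (1 / 10000) :=
        mul_le_mul h7 h4.le h3 (by norm_num)
      have e2 : ((cell j : ℝ) - 6) / 10000 = (cell j : ℝ) / 10000 - 6 * (1 / 10000) := by ring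
      rw [e2]
      nlinarith
    · rw [hfl]
      have h8 : 0 ≤ √(rad j : ℝ) * (v n - z0) := mul_nonneg (Real.sqrt_nonneg _) h3
      nlinarith
  exact_mod_cast Set.ncard_le_ncard hsub hfin

theorem floor_nat {x : ℝ} (hx : 0 ≤ x) : ((⌊x⌋₊ : ℕ) : ℤ) = ⌊x⌋ := Int.natCast_floor_eq_floor hx

/-- the members of a block are large -/
lemma blk_large {D : Set ℕ} {v : ℕ → ℝ} (h1 : ∀ᶠ n : ℕ in atTop, 1 ≤ v n) :
    ∀ᶠ N : ℕ in atTop, ∀ n ∈ blk D N, 1 ≤ v n := by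
  obtain ⟨M, hM⟩ := eventually_atTop.1 h1
  filter_upwards [eventually_ge_atTop M] with N hN n hn
  classical
  have h2 := (Finset.mem_filter.1 (show n ∈ (Finset.Ioc N (2 * N)).filter (fun t => t ∈ D) by
    unfold blk at hn
    convert hn)).1
  rw [Finset.mem_Ioc] at h2
  exact hM n (by omega)

/-- **all the radicands at once along generic sequences** -/
theorem tgt_cnt {D : Set ℕ} {v : ℕ → ℝ} (h : Gen D v) (hv : ∀ᶠ n : ℕ in atTop, 1 ≤ v n) :
    ∀ᶠ N : ℕ in atTop, 1 / 10000 ^ 22 * cnt D (fun _ => True) N ≤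
      cnt D (fun t => 1 ≤ ⌊v t⌋₊ ∧ Tgt (⌊v t⌋₊ : ℕ)) N := by
  filter_upwards [tgt_of h, blk_large (D := D) hv] with N h1 h3
  rw [cnt_true, cnt_eq]
  refine h1.trans ?_
  have : (blk D N : Set ℕ) ∩ {n : ℕ | Tgt ⌊v n⌋} ⊆
      {t : ℕ | t ∈ blk D N ∧ 1 ≤ ⌊v t⌋₊ ∧ Tgt (⌊v t⌋₊ : ℕ)} := by
    rintro n ⟨hn, hn'⟩
    rw [Finset.mem_coe] at hn
    have h4 := h3 n hn
    refine ⟨hn, ?_, ?_⟩
    · rw [Nat.one_le_floor_iff]
      exact h4
    · rw [floor_nat (zero_le_one.trans h4)]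
      exact hn'
  exact_mod_cast Set.ncard_le_ncard this ((Finset.finite_toSet (blk D N)).subset fun n hn => hn.1)

/-- multiples of the integer parts in arcs -/
theorem gen_arc {D : Set ℕ} {v : ℕ → ℝ} (h : Gen D v) {α : ℝ} (hα : 0 < α)
    (hirr : Irrational α) (halg : IsAlgebraic ℚ α) (β : ℝ) {lo hi : ℝ} (hlh : lo ≤ hi) {δ : ℝ} (hδ : 0 < δ) :
    ∀ᶠ N : ℕ in atTop,
      (((blk D N : Set ℕ) ∩ {n : ℕ | ∃ z : ℤ, lo ≤ α * ⌊v n⌋ + β - z ∧ α * ⌊v n⌋ + β - z ≤ hi}).ncard : ℝ) ≤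
        (hi - lo + δ) * (blk D N).card := by
  refine arc hα ?_ hlh hδ
  intro x y hxy
  have hne : (x : ℝ) * α + y ≠ 0 := by
    rcases eq_or_ne x 0 with hx | hx
    · subst hx
      have hy : y ≠ 0 := by
        rcases hxy with h1 | h1
        · exact absurd rfl h1
        · exact h1
      simp only [Int.cast_zero, zero_mul, zero_add]
      exact_mod_cast hy
    · exact ((hirr.intCast_mul hx).add_intCast y).ne_zero
  have h1 := h _ hne (((alg_int x).mul halg).add (alg_int y))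
  have e : (fun n => (x : ℝ) * (α * v n + β) + y * v n) =
      fun n => ((x : ℝ) * α + y) * v n + x * β := by
    funext n
    ring
  rw [e]
  exact h1.add_const _

/-- counting the bad members of generic sequences -/
theorem count_of {D : Set ℕ} {v : ℕ → ℝ} (h : Gen D v) (hv : ∀ᶠ n : ℕ in atTop, 1 ≤ v n) {α : ℝ} (hα : 0 < α)
    (hirr : Irrational α) (halg : IsAlgebraic ℚ α) (β : ℝ) {lo hi : ℝ} (hlh : lo ≤ hi) {bad : ℕ → Prop}
    (hbad : ∀ m : ℕ, 1 ≤ m → bad m → ∃ z : ℤ, lo ≤ α * m + β - z ∧ α * m + β - z ≤ hi)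
    {δ : ℝ} (hδ : 0 < δ) : ∀ᶠ N : ℕ in atTop,
      cnt D (fun t => bad ⌊v t⌋₊) N ≤ (hi - lo + δ) * cnt D (fun _ => True) N := by
  filter_upwards [gen_arc h hα hirr halg β hlh hδ, blk_large (D := D) hv] with N h1 h2
  rw [cnt_true, cnt_eq]
  refine le_trans ?_ h1
  have : {t : ℕ | t ∈ blk D N ∧ bad ⌊v t⌋₊} ⊆ (blk D N : Set ℕ) ∩ {n : ℕ | ∃ z : ℤ,
      lo ≤ α * ⌊v n⌋ + β - z ∧ α * ⌊v n⌋ + β - z ≤ hi} := by
    rintro n ⟨hn, hn'⟩
    have h4 := h2 n hn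
    obtain ⟨z, h5, h6⟩ := hbad _ (Nat.one_le_floor_iff _ |>.2 h4) hn'
    have h7 : ((⌊v n⌋₊ : ℕ) : ℝ) = ((⌊v n⌋ : ℤ) : ℝ) := by
      have := floor_nat (zero_le_one.trans h4)
      exact_mod_cast congrArg (fun z : ℤ => (z : ℝ)) this
    rw [h7] at h5 h6
    exact ⟨Finset.mem_coe.2 hn, z, h5, h6⟩
  exact_mod_cast Set.ncard_le_ncard this ((Finset.finite_toSet (blk D N)).subset fun n hn => hn.1)

/-- nothing is bad -/
theorem count_none {D : Set ℕ} {v : ℕ → ℝ} (hv : ∀ᶠ n : ℕ in atTop, 1 ≤ v n) {bad : ℕ → Prop}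
    (hbad : ∀ m : ℕ, 1 ≤ m → ¬ bad m) {δ : ℝ} (hδ : 0 ≤ δ) : ∀ᶠ N : ℕ in atTop,
      cnt D (fun t => bad ⌊v t⌋₊) N ≤ δ * cnt D (fun _ => True) N := by
  filter_upwards [blk_large (D := D) hv] with N h2
  have key : {t : ℕ | t ∈ blk D N ∧ bad ⌊v t⌋₊} = ∅ := by
    rw [Set.eq_empty_iff_forall_notMem]
    rintro t ⟨ht, ht'⟩
    exact hbad _ (Nat.one_le_floor_iff _ |>.2 (h2 t ht)) ht'
  rw [cnt_true, cnt_eq, key, Set.ncard_empty, Nat.cast_zero]
  positivity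

/-- counting in larger sets -/
lemma cnt_mono (D : Set ℕ) {p q : ℕ → Prop} (h : ∀ t, p t → q t) (N : ℕ) : cnt D p N ≤ cnt D q N := by
  rw [cnt_eq, cnt_eq]
  have h1 : {t : ℕ | t ∈ blk D N ∧ p t} ⊆ {t : ℕ | t ∈ blk D N ∧ q t} := fun t ht => ⟨ht.1, h t ht.2⟩
  have h2 : {t : ℕ | t ∈ blk D N ∧ q t}.Finite := (Finset.finite_toSet (blk D N)).subset fun n hn => hn.1
  exact_mod_cast Set.ncard_le_ncard h1 h2

end Pool.Agent.N54.MS
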